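import Mathlib
import Pool.Agent.Lib.TauNTilting.Defs
import Pool.Agent.Lib.TauNTilting.Assembly

/-!
# The `τ_n`-perpendicular class of a `τ_n`-tilting module is preenveloping

Let `Λ` be an Artin algebra over the commutative artinian ring `R`, let `M` be a finitely generated
`Λ`-module with minimal projective resolution `P`, and let `n ≥ 1`.  If the truncated complex
`P_n → ⋯ → P_1 → P_0` is silting, that is, if `M` is `τ_n`-tilting, then the class
`{N ∈ mod Λ : Hom(N, τ_n M) = 0, Ext^i(M, N) = 0 for 1 ≤ i ≤ n - 1}` is preenveloping in `mod Λ`.

The definitions are in `Pool/Agent/Lib/TauNTilting/Defs.lean`, and the proof is in the other files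
in `Pool/Agent/Lib/TauNTilting`.

## Outline of the proof

Write `T` for the truncated complex in the derived category and `𝒰` for the class of all `X` with
`Hom(T, X[i]) = 0` for every `i > 0`.  A finitely generated module `N` lies in the perpendicular
class exactly when it lies in `𝒰`.  As `T` is silting, `𝒰` is contained in `D^{≤ 0}`.  For a module
`C`, finitely many cones on maps from finite sums of shifts of `T` give a left `𝒰`-approximation
`C → B` with finitely generated cohomology, and each map from `C` to a module in `𝒰` factors through
`C → H^0(B)`.  The module `H^0(B)` need not lie in `𝒰`, but the largest `i` with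
`Hom(T, H^0(B)[i]) ≠ 0` is smaller than for `C`; so after at most `n` repetitions the process
arrives at a module in the perpendicular class.
-/

open CategoryTheory Limits

universe u

namespace Pool.Agent.Results.MP_766682_al.Preenveloping

open Pool.Agent.TauNTilting

/-- Let `Λ` be an Artin algebra over `R`, `M` a finitely generated left `Λ`-module, `P` its minimal
projective resolution and `n ≥ 1`.  If `P_n → ⋯ → P₀` is silting, that is, if `M` is
`τ_n`-tilting, then the `τ_n`-perpendicular class of `M` is preenveloping in `mod Λ`.  (`J` is the
injective envelope of `R / rad R`, which defines the duality `D`.) -/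
theorem result (R : Type u) [CommRing R] [IsArtinianRing R] (Λ : Type u) [Ring Λ] [Algebra R Λ]
    [Module.Finite R Λ] (J : Type u) [AddCommGroup J] [Module R J]
    (ι : (R ⧸ Ring.jacobson R) →ₗ[R] J) (hJ : IsInjectiveEnvelope R (R ⧸ Ring.jacobson R) J ι)
    (M : ModuleCat.{u} Λ) (P : ProjectiveResolution M) (hP : IsMinimal P) (n : ℕ) (hn : 1 ≤ n)
    (hM : IsSilting ((HomotopyCategory.quotient _ _).obj (truncatedComplex P n))) :
    IsPreenveloping Λ (TauPerp R J P n) := by
  let _ := HasDerivedCategory.standard (ModuleCat.{u} Λ)
  have hN : IsNoetherianRing Λ := IsNoetherianRing.of_finite R Λ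
  intro C hC
  obtain ⟨Y, f, h1, h2, h3⟩ := Pool.Agent.TauNTilting.main_abstract
    (pData_of_isSilting R P n hP.finite hM) C inferInstance
  refine ⟨Y, f, (tauPerp_iff R J ι hJ P n hn hP.finite Y).2 ⟨inferInstance, h2⟩, ?_⟩
  intro X hX g
  exact h3 X ((tauPerp_iff R J ι hJ P n hn hP.finite X).1 hX).2 g

end Pool.Agent.Results.MP_766682_al.Preenveloping
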